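import Pool.Agent.Helper32.CL.St1
import Pool.Agent.Helper67.PI.M_V6

/-!
# Project CL, module FV: first variation formula on a closed flow
-/

set_option autoImplicit false

namespace Pool.Agent.Helper29.CL

open Helper32.CL Helper35.PI Helper35.PI2
open scoped ContDiff Manifold Topology ENNReal BigOperators
open MeasureTheory Set Filter

theorem hFV (hMU : StMU) (hV6 : StV6) (hV6a : StV6a) (hSM : StSM) (hI2 : StI2) (hI3 : StI3)
    (hI4 : StI4) : StFV := by
  intro n N M _ _ _ _ _ _ _ F c χ hS t ht X hX
  have hF := hS.mcf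
  have hDD : Continuous (Helper67.PI.V6.DD (n := n) F t X) := by
    rw [continuous_iff_continuousAt]
    intro q₀
    have hE := Helper67.PI.V6.EZ_cont hSM hI2 hI3 F hF q₀ t ht X hX
    have hq : q₀ ∈ (chartAt (EE n) q₀).source := mem_chart_source _ _
    have h1 : ContinuousAt (fun q => Helper67.PI.V6.EZ (n := n) F t q₀ X (chartAt (EE n) q₀ q))
        q₀ := by
      have h2 : ContinuousAt (Helper67.PI.V6.EZ (n := n) F t q₀ X) (chartAt (EE n) q₀ q₀) :=
        hE.continuousAt ((chartAt (EE n) q₀).open_target.mem_nhds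
          ((chartAt (EE n) q₀).map_source hq))
      exact h2.comp ((chartAt (EE n) q₀).continuousAt hq)
    refine h1.congr ?_
    filter_upwards [(chartAt (EE n) q₀).open_source.mem_nhds hq] with q hq'
    have h3 := Helper67.PI.V6.DD_chart hV6a hI3 F hF q₀ t ht X hX (chartAt (EE n) q₀ q)
      ((chartAt (EE n) q₀).map_source hq')
    rw [(chartAt (EE n) q₀).left_inv hq'] at h3
    exact h3.symm
  have hHH : Continuous (fun q => HH (n := n) F q t) := by
    have h := (hI4 n N M F hF).2.1
    have h2 : Continuous (fun q : M => (q, t)) := by fun_prop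
    have hm : ∀ q : M, (q, t) ∈ (univ : Set M) ×ˢ Iio (0 : ℝ) := fun q =>
      Set.mk_mem_prod (mem_univ q) (Set.mem_Iio.2 ht)
    have h3 : Continuous ((fun z : M × ℝ => HH (n := n) F z.1 z.2) ∘ fun q : M => (q, t)) :=
      ContinuousOn.comp_continuous h h2 hm
    exact h3
  refine ⟨?_, ?_⟩
  · have e : (fun q => dvg (n := n) F X q t) = fun q =>
        Helper67.PI.V6.DD (n := n) F t X q - inner ℝ (HH (n := n) F q t) (X q) := by
      funext q
      unfold Helper67.PI.V6.DD
      ring
    rw [e]
    exact hDD.sub (hHH.inner hX.continuous)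
  · obtain ⟨s, hs, h⟩ := hMU n N M F c χ hS
    obtain ⟨-, -, h2⟩ := h t ht
    have h3 := (h2 _ hDD).2
    have h4 := (hV6 n N M F hF t ht c χ hS.pu X hX (HasCompactSupport.of_compactSpace X) s
      (fun i hi q _ => hs i hi q)).2
    have h5 : ∫ q, (dvg (n := n) F X q t + inner ℝ (HH (n := n) F q t) (X q)) ∂muM n F c χ t =
        Ls n F c χ s t (Helper67.PI.V6.DD (n := n) F t X) := h3
    rw [h5, ← h4]
    unfold Ls
    refine Finset.sum_congr rfl fun i _ => ?_
    congr 1
    funext y
    unfold Helper67.PI.V6.DD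
    ring

end Pool.Agent.Helper29.CL
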